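import Mathlib
import Pool.Agent.Run7.h413.DN.Tri

/-!
# Triangle detection: deep networks whose gates share real values

The input is a list of the `m` edges of a simple graph on `2 m` vertices (`Simple`); the question
is whether the graph has a triangle (`triangle`). The items of the input are the entries of the
list.

*Networks* (`Net`). The nodes carry real numbers of unlimited precision, and **the value of a node
may be used by any number of other nodes**. The gates are leaves (arbitrary real functions of one
entry of the list, or of `w` words of length `c log₂ m`, each of which is an arbitrary function of
one entry of the list), weighted sums of any number of inputs (`lin`), products of two inputs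
(`mul`), maxima of any number of inputs (`max`), and symmetric gates (`sym`), whose value is an
arbitrary function of the number of the positive inputs. So deep networks of rectified linear
units, threshold gates, minima, maxima and products are included. A network accepts if the value of
the output node is positive. The inputs of a gate have smaller levels; the depth is at most `d` if
all levels are at most `d` (`DepthLE`).

*Cost.* For each entry of the list we count the leaves which see it, and the wires which leave a
node that depends on it (`traffic`). The cost is the sum of these numbers. So a wire pays the
number of the entries on which its source depends; what is constant is free.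

We show that random networks of depth at most `d` with error probability at most `1 / 3` have cost
`s` with `m ^ 2 log₂ m ≤ 2700 (w c log₂ m + d (d + log₂ m)) s`. So for `d ≤ log₂ m` the cost is at
least of the order `m ^ 2 / (w c + d)`.

Proof. By the coding of helper457 (`Pool.Agent.TH457.Ary.Tri`) each entry of the list can ask for
about `m log₂ m / 4` bits which are encoded in the other entries. Fix all other items (Nechiporuk's
method). If `r` leaves and wires depend on the entry, then the other items enter by at most `2 r`
real parameters: the rest of a weighted sum, the other factor, the maximum of the other inputs, or
the possible values of a symmetric gate. If the values of the nodes of level less than `t` are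
polynomials of degree at most `2 ^ t` in the parameters, then Warren's theorem bounds the number of
the results of all comparisons at the next level. In this way one passes through the levels (as in
the bounds of Bartlett, Maiorov and Meir for the VC dimension of networks), and there are at most
`(q ^ (w - 1) (n ^ O (1) 2 ^ d) ^ (2 (d + 2))) ^ r` functions of the entry (`Run7.h413.DN.Core`,
`Run7.h413.DN.Sub`).
-/

set_option autoImplicit false

namespace Pool.Agent.Results.MP_ad5e8e_lc.DeepNetworks

open Pool.Agent.TH697.Form (IsProb)
open Pool.Agent.TH697.Row (ApproximatesOn)
open Pool.Agent.TH457.Ary.Tri (Edge Simple triangle)
open Run7.h413.DN (Net)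

theorem result : ∀ m c w d : ℕ, 1000 ≤ m → 1 ≤ c → 1 ≤ w → 1 ≤ d →
    ∀ (Ω : Type) [Fintype Ω] (μ : Ω → ℝ), IsProb μ →
      ∀ (s : ℕ) (C : Ω → Net (Fin m) (fun _ => Edge (2 * m)) w (m ^ c)),
        (∀ ω, (C ω).DepthLE d) → (∀ ω, (C ω).cost Finset.univ ≤ s) →
        ApproximatesOn μ (fun ω => (C ω).eval) Simple triangle →
        (m : ℝ) ^ 2 * Real.logb 2 m ≤
          2700 * (w * c * Real.logb 2 m + d * (d + Real.logb 2 m)) * s :=
  fun _ _ _ _ hm hc hw hd _ _ μ hμ s C hdep hs hC =>
    Run7.h413.DN.Tri.bound hm hc hw hd μ hμ s C hdep hs hC

end Pool.Agent.Results.MP_ad5e8e_lc.DeepNetworks
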