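import Mathlib
import Pool.Agent.Run7.h412.FC.Tri

/-!
# Triangle detection: circuits over formulas of bilinear maps over a finite field

The input is a list of the `m` edges of a simple graph on `2 m` vertices; the question is whether the
graph has a triangle. The items of the input are the entries of the list.

*Formulas* (`Fml`). The wires carry vectors of dimension `d` over a finite field `K`. The leaves are
vectors, or matrices which are applied to a vector (`act`), which depend in an arbitrary way on one
item, or on `w` words of length `c log₂ m`, each of which is an arbitrary function of one item. The
gates are sums, arbitrary bilinear maps of two vectors (`bil`), arbitrary functions of the values of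
`e` linear forms (`fn`), and gates `sym` of any fan-in whose value is an arbitrary function of the
number of the inputs for which a linear form is not zero. So products of matrices of order `d` over
`K` (for `K = ZMod 2` in particular branching programs of width `d` and their parity versions), and
the contractions of tensor networks over `K` whose intermediate tensors have at most `d` entries, are
formulas of this kind.

*Circuits* (`Circuit`) compute shared bits; each bit is the result of a branching program whose tests
are formulas, and the leaves may also read the bits computed before. A leaf which reads an item pays
its price: one for an entry of the list, and for a shared bit the number of the entries on which the bit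
depends. The cost is the sum of the prices of all leaves, plus the number of inner nodes of the
branching programs, plus the number of wires which lead to gates `sym`. All other gates and constants
are free.

We show that random circuits with error probability at most `1 / 3` have cost `s` with
`m ^ 2 log₂ m ≤ 1200 (w c log₂ m + d (d + |K| ^ e) log₂ |K|) s`. So for constant `w`, `c`, `K`, `e` the cost is
of the order `m ^ 2` if the vectors have dimension `O (√(log m))`, and an algorithm of this kind with
only `m ^ (2 - ε)` readings computes with vectors of dimension `m ^ (ε / 2)`, or with shared bits which
depend on many of the edges.

Proof. By the coding of helper457 (`Pool.Agent.TH457.Ary.Tri`) each entry of the list can ask for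
about `m log₂ m / 4` bits which are encoded in the other entries. We count the functions of this item which arise when the other items are fixed: if
`r` leaves see it or bits which depend on it, there are `O (r)` places at which other parts enter, and
the function of the vector at such a place is an affine map or a function of `e` linear forms; the
values of the shared bits are treated one after the other (`Pool.Agent.N452.FF.Core`,
`Pool.Agent.N452.FF.Prog`; Nechiporuk's method).
-/

set_option autoImplicit false

namespace Pool.Agent.Results.MP_ad5e8e_lc.FieldCircuits

open Pool.Agent.TH697.Form (IsProb)
open Pool.Agent.TH697.Row (ApproximatesOn)
open Pool.Agent.TH457.Ary.Tri (Edge Simple triangle)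
open Pool.Agent.N452.FF (Circuit)

theorem result : ∀ (K : Type) [Field K] [Fintype K] [DecidableEq K] (m c w d e : ℕ),
    1000 ≤ m → 1 ≤ c → 1 ≤ w → 1 ≤ e →
    ∀ (Ω : Type) [Fintype Ω] (μ : Ω → ℝ), IsProb μ →
      ∀ (s : ℕ) (C : Ω → Circuit K (Fin m) (fun _ => Edge (2 * m)) w (m ^ c) d e),
        (∀ ω, (C ω).circ.cost Finset.univ ≤ s) →
        ApproximatesOn μ (fun ω => (C ω).eval) Simple triangle →
        (m : ℝ) ^ 2 * Real.logb 2 m ≤ 1200 * (w * c * Real.logb 2 m +
          d * (d + (Fintype.card K : ℝ) ^ e) * Real.logb 2 (Fintype.card K)) * s :=
  fun _ _ _ _ _ _ _ _ _ hm hc hw he _ _ μ hμ s C hs hC =>
    Pool.Agent.Run7.h412.FC.Tri.bound hm hc hw he μ hμ s C hs hC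

end Pool.Agent.Results.MP_ad5e8e_lc.FieldCircuits
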