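import Mathlib
import Pool.Agent.Run7.h413.MX.Tri

/-!
# Triangle detection: circuits over real formulas with maximum gates

The input is a list of the `m` edges of a simple graph on `2 m` vertices (`Simple`); the question
is whether the graph has a triangle (`triangle`). The items of the input are the entries of the
list.

*Formulas* (`Fml`). The wires carry real numbers of unlimited precision. The leaves are arbitrary
real functions of one entry of the list, or of `w` words of length `c log₂ m`, each of which is an
arbitrary function of one entry of the list. The gates are sums, products, **maxima**, tests of the
sign with two arbitrary results (`test`), and gates `sym` of any fan-in whose value is an arbitrary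
function of the number of the positive inputs. Since constants are free, minima, rectified linear
units `max (x, 0)` and clipping are included: `min (x, y) = - max (- x, - y)`.

*Circuits* (`Circuit`) compute shared bits; each bit is the result of a branching program whose
tests are formulas, and the leaves may also read the bits computed before. A leaf pays one for each
entry of the list which it reads, and for a shared bit the number of the entries on which the bit
depends. The cost is the sum of these prices for all leaves, plus the number of inner nodes of the
branching programs, plus the number of wires which lead to gates `sym`. All other gates and
constants are free.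

We show that random circuits with error probability at most `1 / 3` have cost `s ≥ m ^ 2 / (12000
(w c + log₂ m))`.

Proof. By the coding of helper457 (`Pool.Agent.TH457.Ary.Tri`) each entry of the list can ask for
about `m log₂ m / 4` bits which are encoded in the other entries. We count the functions of this
entry which arise when the other items are fixed (Nechiporuk's method). Without maxima a formula
with `r` readings of the entry is, on each sign pattern, a polynomial in `O (r)` parameters, and
Warren's theorem bounds the number of sign patterns. A maximum of two subformulas with `r'` and
`r''` readings multiplies the numbers of their pieces, and this argument gives nothing. Here only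
the pieces of the lighter input of each gate are refined by means of Warren's theorem; a place is
then refined at most `log₂ s` times, and the number of functions is `n ^ (O (r log s))`
(`Run7.h413.MX.Cov`, `Run7.h413.MX.Core`). The values of the shared bits are treated one after the
other (`Run7.h413.MX.Prog`).
-/

set_option autoImplicit false

namespace Pool.Agent.Results.MP_ad5e8e_lc.MaximumGates

open Pool.Agent.TH697.Form (IsProb)
open Pool.Agent.TH697.Row (ApproximatesOn)
open Pool.Agent.TH457.Ary.Tri (Edge Simple triangle)
open Run7.h413.MX (Circuit)

theorem result : ∀ m c w : ℕ, 1000 ≤ m → 1 ≤ c → 1 ≤ w →
    ∀ (Ω : Type) [Fintype Ω] (μ : Ω → ℝ), IsProb μ →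
      ∀ (s : ℕ) (C : Ω → Circuit (Fin m) (fun _ => Edge (2 * m)) w (m ^ c)),
        (∀ ω, (C ω).circ.cost Finset.univ ≤ s) →
        ApproximatesOn μ (fun ω => (C ω).eval) Simple triangle →
        (m : ℝ) ^ 2 ≤ 12000 * (w * c + Real.logb 2 m) * s :=
  fun _ _ _ hm hc hw _ _ μ hμ s C hs hC =>
    Run7.h413.MX.Tri.bound hm hc hw μ hμ s C hs hC

end Pool.Agent.Results.MP_ad5e8e_lc.MaximumGates
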