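import Mathlib
import Pool.Agent.Run7.h412.SP.Tri

/-!
# Triangle detection: span programs over finite fields which test real formulas

The input is a list of the `m` edges of a simple graph on `2 m` vertices; the question is whether the
graph has a triangle. The items of the input are the entries of the list.

A real formula (`Fml`) is built from real constants, arbitrary real functions of one item, and
arbitrary real functions of `w` words of length `c log₂ m`, where each word is an arbitrary
function of one item, by sums, products, sign tests `pos`, and gates `sym` of any fan-in whose value
is an arbitrary real function of the number of positive inputs. A span program (`SpanProgram`,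
Karchmer and Wigderson 1993) over a finite field `K` has vectors of a space `K ^ dim`, each of which
is guarded by a real formula, a subspace of free vectors, and a target vector; it accepts the input if
the target is a linear combination of free vectors and of vectors whose guards accept the input. The
size is the number of the guarded vectors plus the sizes of the guards (leaves, and wires to gates
`sym`); the dimension and the free vectors are not counted. Undirected contact schemes over all
fields, and the parity and modular versions of branching programs (is the number of accepting paths
nonzero in `K`) are span programs.

We show that random span programs (first the random choice) of size at most `s` which accept the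
graphs with a triangle, or which accept the graphs without triangles, with error probability at most
`1 / 3`, need `m ^ 2 ≤ 3000 w (√(log₂ |K| m) + 350 c w) s`, that is, size of order `m ^ (3 / 2)` for every
fixed field.

Proof. By the coding of helper457 (`Pool.Agent.TH457.Ary.Tri`) each entry of the list can ask for
about `m log₂ m / 4` bits which are encoded in the other entries. If `r` leaves
see an item, then for fixed other items the coefficients of the live vectors which complete a
combination form an affine subspace of `K ^ r` or the empty set, so there are at most
`2 |K| ^ (r ^ 2 + r)` possibilities, and the guards take `2 ^ O (r log n)` different functions of the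
item (Warren's bound, `Pool.Agent.Y638.RF.Core`); the rest is Nechiporuk's method with random
strings (`Pool.Agent.Run7.h412.SP.Core`, `Pool.Agent.Run7.h412.SP.Lower`).
-/

set_option autoImplicit false

namespace Pool.Agent.Results.MP_ad5e8e_lc.SpanPrograms

open Pool.Agent.TH697.Form (IsProb)
open Pool.Agent.TH697.Row (ApproximatesOn)
open Pool.Agent.TH457.Ary.Tri (Edge Simple triangle)
open Pool.Agent.Run7.h412.SP (SpanProgram)

theorem result : ∀ (K : Type) [Field K] [Fintype K] (m c w : ℕ), 1000 ≤ m → 1 ≤ c → 1 ≤ w →
    ∀ (Ω : Type) [Fintype Ω] (μ : Ω → ℝ), IsProb μ →
      ∀ (s : ℕ) (N : Ω → SpanProgram K (Fin m) (fun _ => Edge (2 * m)) w (m ^ c)),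
        (∀ ω, (N ω).size ≤ s) →
        (ApproximatesOn μ (fun ω => (N ω).eval) Simple triangle ∨
          ApproximatesOn μ (fun ω x => !(N ω).eval x) Simple triangle) →
        (m : ℝ) ^ 2 ≤ 3000 * w * (√(Real.logb 2 (Fintype.card K) * m) + 350 * c * w) * s :=
  fun _ _ _ _ _ _ hm hc hw _ _ μ hμ s N hs hN =>
    Pool.Agent.Run7.h412.SP.Tri.bound hm hc hw μ hμ s N hs hN

end Pool.Agent.Results.MP_ad5e8e_lc.SpanPrograms
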